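import Pool.Agent.H47.RP.Targets3
import Pool.Agent.H33.MT.EUL
import Pool.Agent.H33.MT.MERT
import Pool.Agent.H86.MT.DIV
import Pool.Agent.H49.RR.RRAP
import Pool.Agent.H41.RR.RODG
import Pool.Agent.H95.RR.RODC

/-!
# Row RAB of the board rpr (MP_34b97f_an): the absolute values of the coordinates are functions of
the remote past
-/

set_option autoImplicit false

open MeasureTheory ProbabilityTheory Filter Topology Finset

namespace Pool.Agent.H1.RPR.RAB

open Pool.Agent.H47.RP
open Pool.Agent.H89.MT (I1 X pt z1 IsMult lavg)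
open Pool.Agent.H36.RP (past past_le remote remote_le T_TAI)
open Pool.Agent.H92.RR (ab)

theorem pt_ab (u : ℕ → I1) (n : ℕ) (j : ℤ) : pt (fun n => ab (u n)) n j = ab (pt u n j) := by
  unfold Pool.Agent.H89.MT.pt
  split_ifs
  · rfl
  · apply Subtype.ext
    show ((z1 : I1) : ℝ) = |((z1 : I1) : ℝ)|
    simp [Pool.Agent.H89.MT.z1]

/-- the absolute values are uniformly almost periodic along multiples of some `q` -/
theorem per (u : ℕ → I1) (hu : IsMult u) (κ : Measure X) [IsProbabilityMeasure κ]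
    (hκ : Pool.Agent.H89.MT.QuasiGeneric u κ) (ε : ℝ) (hε : 0 < ε) :
    ∃ q : ℕ, 0 < q ∧ ∀ (m : ℕ) (j : ℤ), ∫ x : X, |(|(x (j + q * m) : ℝ)| - |(x j : ℝ)|)| ∂κ ≤ ε := by
  have habm : IsMult fun n => ab (u n) := by
    refine ⟨?_, fun m n hm hn h => ?_⟩
    · show |(u 1 : ℝ)| = 1
      rw [hu.1, abs_one]
    · show |(u (m * n) : ℝ)| = |(u m : ℝ)| * |(u n : ℝ)|
      rw [hu.2 m n hm hn h, abs_mul]
  have hab0 : ∀ n, 0 ≤ ((fun n => ab (u n)) n : ℝ) := fun n => abs_nonneg (u n : ℝ)
  have hRAP : Pool.Agent.H92.RR.T_RAP := Pool.Agent.H49.RR.pf_RAP Pool.Agent.H33.MT.pf_MERT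
    Pool.Agent.H33.MT.pf_EUL Pool.Agent.H86.MT.pf_DIV
  have hrap := hRAP _ habm hab0
  obtain ⟨α, hα, hg⟩ := Pool.Agent.H41.RR.pf_ODG _ hrap
  obtain ⟨q, hq, hq'⟩ := Pool.Agent.H95.RR.pf_RODC _ α hα hrap hg ε hε
  refine ⟨q, hq, fun m j => ?_⟩
  refine le_of_eq_of_le ?_ (hq' m j)
  obtain ⟨-, N, hN, hN'⟩ := hκ
  let F : C(X, ℝ) := ⟨fun x => |(|(x (j + q * m) : ℝ)| - |(x j : ℝ)|)|, by fun_prop⟩
  let G : C(X, ℝ) := ⟨fun x => |(x (j + q * m) : ℝ) - (x j : ℝ)|, by fun_prop⟩
  have h1 := hN' F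
  have h2 := (hg G).comp hN
  have h3 : ∀ n, G (pt (fun n => ab (u n)) n) = F (pt u n) := by
    intro n
    show |((pt (fun n => ab (u n)) n (j + q * m) : I1) : ℝ) - (pt (fun n => ab (u n)) n j : I1)| =
      |(|((pt u n (j + q * m) : I1) : ℝ)| - |((pt u n j : I1) : ℝ)|)|
    rw [pt_ab, pt_ab]
    rfl
  have h4 : (fun N => lavg N fun n => G (pt (fun n => ab (u n)) n)) ∘ N =
      fun k => lavg (N k) fun n => F (pt u n) := by
    funext k
    simp only [Function.comp, h3]
  rw [h4] at h2
  exact tendsto_nhds_unique h1 h2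

/-- RAB. -/
theorem pf_RAB (hTAI : T_TAI) : T_RAB := by
  intro u hu κ _ hκ j
  set f : X → ℝ := fun x => |(x j : ℝ)| with hf
  have hm : ∀ k : ℤ, Measurable fun x : X => |(x k : ℝ)| := by
    intro k
    exact (measurable_subtype_coe.comp (measurable_pi_apply k)).abs
  have hb : ∀ (k : ℤ) (x : X), ‖|(x k : ℝ)|‖ ≤ 1 := by
    intro k x
    rw [Real.norm_eq_abs, abs_abs]
    exact abs_le.2 ⟨(x k).2.1, (x k).2.2⟩
  have hi : ∀ k : ℤ, Integrable (fun x : X => |(x k : ℝ)|) κ := fun k =>
    Integrable.of_bound (hm k).aestronglyMeasurable 1 (Eventually.of_forall (hb k))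
  have key : ∀ t : ℤ, κ[f | past t] =ᵐ[κ] f := by
    intro t
    have h0 : ∫ x, |f x - (κ[f | past t]) x| ∂κ ≤ 0 := by
      refine le_of_forall_pos_le_add fun ε hε => ?_
      obtain ⟨q, hq, hq'⟩ := per u hu κ hκ (ε / 2) (by linarith)
      obtain ⟨m, hm'⟩ : ∃ m : ℕ, j - q * m ≤ t := by
        refine ⟨(j - t).toNat, ?_⟩
        have h5 : (j - t) ≤ ((j - t).toNat : ℤ) := Int.self_le_toNat _
        have h6 : (1 : ℤ) ≤ q := by exact_mod_cast hq
        nlinarith [Int.natCast_nonneg (j - t).toNat]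
      set g : X → ℝ := fun x => |(x (j - q * m) : ℝ)| with hg
      have hgi : Integrable g κ := hi _
      have hfi : Integrable f κ := hi j
      have hfg : ∫ x, |f x - g x| ∂κ ≤ ε / 2 := by
        have := hq' m (j - q * m)
        simpa [hf, hg] using this
      have hgm : StronglyMeasurable[past t] g := by
        refine Measurable.stronglyMeasurable ?_
        have h7 : Measurable[past t] fun x : X => x (j - q * m) := by
          intro s hs
          have h8 : MeasurableSpace.comap (fun x : X => x (j - q * m)) inferInstance ≤ past t :=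
            le_iSup_of_le (j - q * m) (le_iSup_of_le hm' le_rfl)
          exact h8 _ ⟨s, hs, rfl⟩
        have h12 : Measurable (fun a : I1 => |(a : ℝ)|) := measurable_subtype_coe.abs
        exact h12.comp h7
      have hcg : κ[g | past t] = g := condExp_of_stronglyMeasurable (past_le t) hgm hgi
      have h9 : ∫ x, |(κ[g - f | past t]) x| ∂κ ≤ ε / 2 := by
        refine (integral_abs_condExp_le _).trans ?_
        refine le_of_eq_of_le ?_ hfg
        refine integral_congr_ae (Eventually.of_forall fun x => ?_)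
        show |g x - f x| = |f x - g x|
        exact abs_sub_comm _ _
      have h10 : (κ[g - f | past t]) =ᵐ[κ] κ[g | past t] - κ[f | past t] :=
        condExp_sub hgi hfi _
      have h11 : ∫ x, |f x - (κ[f | past t]) x| ∂κ ≤
          ∫ x, (|f x - g x| + |(κ[g - f | past t]) x|) ∂κ := by
        refine integral_mono_ae ((hfi.sub integrable_condExp).abs)
          ((hfi.sub hgi).abs.add integrable_condExp.abs) ?_
        filter_upwards [h10] with x hx
        rw [hx, hcg]
        show |f x - (κ[f | past t]) x| ≤ |f x - g x| + |g x - (κ[f | past t]) x|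
        exact abs_sub_le _ _ _
      have h13 : ∫ x, (|f x - g x| + |(κ[g - f | past t]) x|) ∂κ =
          ∫ x, |f x - g x| ∂κ + ∫ x, |(κ[g - f | past t]) x| ∂κ :=
        integral_add (μ := κ) (f := fun x => |f x - g x|)
          (g := fun x => |(κ[g - f | past t]) x|) (hfi.sub hgi).abs integrable_condExp.abs
      rw [h13] at h11
      linarith
    have h1 : ∫ x, |f x - (κ[f | past t]) x| ∂κ = 0 :=
      le_antisymm h0 (integral_nonneg fun x => abs_nonneg _)
    have h2 := (integral_eq_zero_iff_of_nonneg (fun x => abs_nonneg _)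
      (((hi j).sub integrable_condExp).abs)).1 h1
    filter_upwards [h2] with x hx
    have h3 : |f x - (κ[f | past t]) x| = 0 := hx
    have := abs_eq_zero.1 h3
    linarith
  have h := hTAI κ f j fun i => (key j).trans (key (j - i)).symm
  exact h.symm.trans (key j)

end Pool.Agent.H1.RPR.RAB

namespace Pool.Agent.H1.RPR

open Pool.Agent.H47.RP
open Pool.Agent.H36.RP (T_TAI)

theorem pf_RAB : T_TAI → T_RAB := RAB.pf_RAB

end Pool.Agent.H1.RPR
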