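import Pool.Agent.H47.RP.Targets
import Pool.Agent.H56.RB.MER

/-!
# Row RZA of the board rpr (MP_34b97f_an): the logarithmic sum of a multiplicative function with
nonnegative values
-/

set_option autoImplicit false

open Finset

namespace Pool.Agent.H1.RPR

open Pool.Agent.H47.RP
open Pool.Agent.H89.MT (I1 X pt z1 IsMult)

/-- the function `|u n| / n` -/
noncomputable def fu (u : ℕ → I1) (n : ℕ) : ℝ := |(u n : ℝ)| / n

lemma abs_u_le (u : ℕ → I1) (n : ℕ) : |(u n : ℝ)| ≤ 1 := abs_le.2 ⟨(u n).2.1, (u n).2.2⟩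

lemma fu_nonneg (u : ℕ → I1) (n : ℕ) : 0 ≤ fu u n := by unfold fu; positivity

lemma fu_one {u : ℕ → I1} (hu : IsMult u) : fu u 1 = 1 := by
  unfold fu
  rw [hu.1]
  norm_num

lemma fu_mul {u : ℕ → I1} (hu : IsMult u) {m n : ℕ} (h : Nat.Coprime m n) :
    fu u (m * n) = fu u m * fu u n := by
  unfold fu
  rcases Nat.eq_zero_or_pos m with rfl | hm
  · simp
  rcases Nat.eq_zero_or_pos n with rfl | hn
  · simp
  rw [hu.2 m n hm hn h, abs_mul]
  push_cast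
  rw [mul_div_mul_comm]

lemma fu_pow_le (u : ℕ → I1) {p : ℕ} (hp : p.Prime) (k : ℕ) : fu u (p ^ k) ≤ (1 / (p : ℝ)) ^ k := by
  unfold fu
  have hp0 : (0 : ℝ) < p := by exact_mod_cast hp.pos
  push_cast
  rw [one_div, inv_pow, ← one_div]
  exact div_le_div_of_nonneg_right (abs_u_le u _) (by positivity)

lemma one_div_p {p : ℕ} (hp : p.Prime) : 0 ≤ 1 / (p : ℝ) ∧ 1 / (p : ℝ) ≤ 1 / 2 := by
  have hp2 : (2 : ℝ) ≤ p := by exact_mod_cast hp.two_le
  exact ⟨by positivity, one_div_le_one_div_of_le (by norm_num) hp2⟩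

lemma summ (u : ℕ → I1) {p : ℕ} (hp : p.Prime) : Summable (fun k : ℕ => fu u (p ^ k)) := by
  obtain ⟨h0, h1⟩ := one_div_p hp
  exact Summable.of_nonneg_of_le (fun k => fu_nonneg u _) (fun k => fu_pow_le u hp k)
    (summable_geometric_of_lt_one h0 (by linarith))

lemma tsum_le {u : ℕ → I1} (hu : IsMult u) {p : ℕ} (hp : p.Prime) :
    ∑' k : ℕ, fu u (p ^ k) ≤ Real.exp (|(u p : ℝ)| / p + 2 * ((p : ℝ) ^ 2)⁻¹) := by
  obtain ⟨h0, h1⟩ := one_div_p hp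
  have hs := summ u hp
  have hp0 : (0 : ℝ) < p := by exact_mod_cast hp.pos
  have e1 : ∑' k : ℕ, fu u (p ^ k) = 1 + |(u p : ℝ)| / p + ∑' k : ℕ, fu u (p ^ (k + 2)) := by
    rw [← hs.sum_add_tsum_nat_add 2]
    congr 1
    rw [sum_range_succ, sum_range_one, pow_zero, pow_one, fu_one hu]
    rfl
  have hg := hasSum_geometric_of_lt_one h0 (by linarith : 1 / (p : ℝ) < 1)
  have e2 : ∑' k : ℕ, fu u (p ^ (k + 2)) ≤ (1 / (p : ℝ)) ^ 2 * (1 - 1 / (p : ℝ))⁻¹ := by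
    rw [← hg.tsum_eq, ← tsum_mul_left]
    refine Summable.tsum_le_tsum (fun k => ?_) ((summable_nat_add_iff 2).2 hs)
      (hg.summable.mul_left _)
    refine (fu_pow_le u hp (k + 2)).trans (le_of_eq ?_)
    rw [pow_add, mul_comm]
  have e3 : (1 - 1 / (p : ℝ))⁻¹ ≤ 2 := by
    rw [inv_le_comm₀ (by linarith) (by norm_num)]
    linarith
  have e4 : (1 / (p : ℝ)) ^ 2 * (1 - 1 / (p : ℝ))⁻¹ ≤ 2 * ((p : ℝ) ^ 2)⁻¹ := by
    rw [one_div, inv_pow] at *
    calc ((p : ℝ) ^ 2)⁻¹ * (1 - (p : ℝ)⁻¹)⁻¹ ≤ ((p : ℝ) ^ 2)⁻¹ * 2 :=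
          mul_le_mul_of_nonneg_left (by simpa using e3) (by positivity)
      _ = _ := mul_comm _ _
  rw [e1]
  have e5 := Real.add_one_le_exp (|(u p : ℝ)| / p + 2 * ((p : ℝ) ^ 2)⁻¹)
  linarith

theorem pf_RZA : T_RZA := by
  obtain ⟨c, hc, hmer⟩ := Pool.Agent.H38.RB.MER
  refine ⟨Real.exp (c + 2), fun u hu N hN => ?_⟩
  have hfil : (N + 1).primesBelow = (Icc 1 N).filter Nat.Prime := by
    ext p
    rw [Nat.mem_primesBelow, mem_filter, mem_Icc]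
    constructor
    · rintro ⟨h1, h2⟩
      exact ⟨⟨h2.pos, by omega⟩, h2⟩
    · rintro ⟨⟨-, h1⟩, h2⟩
      exact ⟨by omega, h2⟩
  have hN1 : (1 : ℝ) < N := by exact_mod_cast hN
  have hlog : 0 < Real.log N := Real.log_pos hN1
  have hE := (EulerProduct.summable_and_hasSum_smoothNumbers_prod_primesBelow_tsum
    (f := fu u) (fu_one hu) (fun h => fu_mul hu h)
    (fun {p} hp => by
      have := summ u hp
      refine this.congr fun k => ?_
      rw [Real.norm_of_nonneg (fu_nonneg u _)]) (N + 1)).2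
  rw [hfil] at hE
  have hE' : HasSum (Set.indicator ((N + 1).smoothNumbers) (fu u))
      (∏ p ∈ (Icc 1 N).filter Nat.Prime, ∑' n : ℕ, fu u (p ^ n)) :=
    hasSum_subtype_iff_indicator.1 hE
  have h1 : ∑ n ∈ Icc 1 N, |(u n : ℝ)| / n ≤
      ∏ p ∈ (Icc 1 N).filter Nat.Prime, ∑' n : ℕ, fu u (p ^ n) := by
    have h2 := sum_le_hasSum (Icc 1 N) (fun n _ => Set.indicator_nonneg
      (fun x _ => fu_nonneg u x) n) hE'
    refine le_trans (le_of_eq ?_) h2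
    refine sum_congr rfl fun n hn => ?_
    rw [mem_Icc] at hn
    rw [Set.indicator_of_mem]
    · rfl
    · rw [Nat.mem_smoothNumbers]
      refine ⟨by omega, fun p hp => ?_⟩
      have := Nat.le_of_dvd (by omega) (Nat.dvd_of_mem_primeFactorsList hp)
      omega
  have h2 : ∏ p ∈ (Icc 1 N).filter Nat.Prime, ∑' n : ℕ, fu u (p ^ n) ≤
      ∏ p ∈ (Icc 1 N).filter Nat.Prime, Real.exp (|(u p : ℝ)| / p + 2 * ((p : ℝ) ^ 2)⁻¹) := by
    refine prod_le_prod (fun p _ => tsum_nonneg fun k => fu_nonneg u _) fun p hp => ?_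
    exact tsum_le hu (mem_filter.1 hp).2
  rw [← Real.exp_sum] at h2
  have h3 : ∑ p ∈ (Icc 1 N).filter Nat.Prime, ((p : ℝ) ^ 2)⁻¹ ≤ 1 := by
    have h4 := sum_Ioo_inv_sq_le (α := ℝ) 1 (N + 1)
    have h5 : ∑ p ∈ (Icc 1 N).filter Nat.Prime, ((p : ℝ) ^ 2)⁻¹ ≤
        ∑ i ∈ Ioo 1 (N + 1), ((i : ℝ) ^ 2)⁻¹ := by
      refine sum_le_sum_of_subset_of_nonneg ?_ fun _ _ _ => by positivity
      intro p hp
      rw [mem_filter, mem_Icc] at hp
      rw [mem_Ioo]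
      have := hp.2.two_le
      omega
    refine h5.trans (h4.trans ?_)
    norm_num
  have hm := hmer N (by exact_mod_cast hN)
  rw [Nat.floor_natCast] at hm
  have h6 : ∑ p ∈ (Icc 1 N).filter Nat.Prime, (|(u p : ℝ)| / p + 2 * ((p : ℝ) ^ 2)⁻¹) =
      ∑ p ∈ (Icc 1 N).filter Nat.Prime, 1 / (p : ℝ) -
        ∑ p ∈ (Icc 1 N).filter Nat.Prime, (1 - |(u p : ℝ)|) / p +
        2 * ∑ p ∈ (Icc 1 N).filter Nat.Prime, ((p : ℝ) ^ 2)⁻¹ := by
    rw [mul_sum, ← sum_sub_distrib, ← sum_add_distrib]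
    refine sum_congr rfl fun p _ => ?_
    ring
  have h7 : Real.exp (∑ p ∈ (Icc 1 N).filter Nat.Prime,
      (|(u p : ℝ)| / p + 2 * ((p : ℝ) ^ 2)⁻¹)) ≤ Real.exp (c + 2) * Real.log N *
      Real.exp (-∑ p ∈ (Icc 1 N).filter Nat.Prime, (1 - |(u p : ℝ)|) / p) := by
    have h8 : Real.log N = Real.exp (Real.log (Real.log N)) := (Real.exp_log hlog).symm
    rw [h8, ← Real.exp_add, ← Real.exp_add]
    refine Real.exp_le_exp.2 ?_
    rw [h6]
    linarith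
  exact (h1.trans h2).trans h7

end Pool.Agent.H1.RPR
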